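import Mathlib

/-!
# A non-metrizable compact subset of `SC_p(ω^ω)` homeomorphic to a convex compact set

`C` is the set of all `a : ℝ → [0, 1]` with `∑ a ≤ 1`.  It is mapped to the scatteredly continuous
functions on `ω^ω` by `a ↦ (x ↦ max (a (β (x 1, x 2, …)) - 2 ^ (- x 0)) 0)`, where `β` is a bijection
of `ω^ω` onto `ℝ`: this function has finite support on each of the clopen sets `{x | x 0 = n}`.
-/

namespace Pool.Agent.Results.MP_69956f_gt.SimplexCompact

open Set Topology TopologicalSpace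

/-- `f : X → ℝ` is scatteredly continuous: for every nonempty `A ⊆ X` the restriction of `f` to `A`
has at least one point of continuity. -/
def ScatteredlyContinuous {X : Type*} [TopologicalSpace X] (f : X → ℝ) : Prop :=
  ∀ A : Set X, A.Nonempty → ∃ x : A, ContinuousAt (A.domRestrict f) x

/-- The convex compact set of all `a : ℝ → [0, 1]` with `∑ a ≤ 1`. -/
def C : Set (ℝ → ℝ) := {a | (∀ t, 0 ≤ a t) ∧ ∀ F : Finset ℝ, ∑ t ∈ F, a t ≤ 1}

lemma le_one {a : ℝ → ℝ} (ha : a ∈ C) (t : ℝ) : a t ≤ 1 := by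
  simpa using ha.2 {t}

lemma convex_C : Convex ℝ C := by
  intro a ha b hb r s hr hs hrs
  refine ⟨fun t => ?_, fun F => ?_⟩
  · have h1 := ha.1 t
    have h2 := hb.1 t
    simp only [Pi.add_apply, Pi.smul_apply, smul_eq_mul]
    positivity
  · have h1 := ha.2 F
    have h2 := hb.2 F
    simp only [Pi.add_apply, Pi.smul_apply, smul_eq_mul]
    rw [Finset.sum_add_distrib, ← Finset.mul_sum, ← Finset.mul_sum]
    nlinarith

lemma isCompact_C : IsCompact C := by
  have h1 : IsCompact (Set.pi univ fun _ : ℝ => Icc (0 : ℝ) 1) :=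
    isCompact_univ_pi fun _ => isCompact_Icc
  refine h1.of_isClosed_subset ?_ ?_
  · have : C = (⋂ t : ℝ, {a : ℝ → ℝ | 0 ≤ a t}) ∩
        ⋂ F : Finset ℝ, {a : ℝ → ℝ | ∑ t ∈ F, a t ≤ 1} := by
      ext a
      simp [C]
    rw [this]
    refine (isClosed_iInter fun t => ?_).inter (isClosed_iInter fun F => ?_)
    · exact isClosed_le continuous_const (continuous_apply t)
    · exact isClosed_le (continuous_finsetSum _ fun t _ => continuous_apply t) continuous_const
  · intro a ha t _
    exact ⟨ha.1 t, le_one ha t⟩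

lemma finite_large {a : ℝ → ℝ} (ha : a ∈ C) {ε : ℝ} (hε : 0 < ε) : {t | ε < a t}.Finite := by
  by_contra hinf
  obtain ⟨N, hN⟩ := exists_nat_gt (1 / ε)
  obtain ⟨F, hF, hc⟩ := Set.Infinite.exists_subset_card_eq hinf N
  have h1 := ha.2 F
  have h2 : ∑ _t ∈ F, ε ≤ ∑ t ∈ F, a t := Finset.sum_le_sum fun t ht => (hF ht).le
  rw [Finset.sum_const, hc, nsmul_eq_mul] at h2
  rw [div_lt_iff₀ hε] at hN
  linarith

/-- A bijection of `ω^ω` onto `ℝ`. -/
noncomputable def β : (ℕ → ℕ) ≃ ℝ :=
  (Cardinal.eq.1 (by simp [Cardinal.mk_real])).some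

/-- The point with the first term removed. -/
def tail (x : ℕ → ℕ) : ℕ → ℕ := fun n => x (n + 1)

lemma ext_tail {x y : ℕ → ℕ} (h0 : x 0 = y 0) (h : tail x = tail y) : x = y := by
  funext n
  cases n with
  | zero => exact h0
  | succ n => exact congrFun h n

/-- The embedding. -/
noncomputable def e (a : ℝ → ℝ) (x : ℕ → ℕ) : ℝ := max (a (β (tail x)) - (1 / 2) ^ (x 0)) 0

lemma scatteredlyContinuous_e {a : ℝ → ℝ} (ha : a ∈ C) : ScatteredlyContinuous (e a) := by
  rintro A ⟨p, hp⟩
  set n := p 0 with hn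
  set S : Set (ℕ → ℕ) := {x | x 0 = n ∧ (1 / 2 : ℝ) ^ n < a (β (tail x))} with hS
  have hfin : S.Finite := by
    have h1 : {t | (1 / 2 : ℝ) ^ n < a t}.Finite := finite_large ha (by positivity)
    refine Set.Finite.of_finite_image (f := fun x => β (tail x)) (h1.subset ?_) ?_
    · rintro _ ⟨x, hx, rfl⟩
      exact hx.2
    · intro x hx y hy hxy
      exact ext_tail (hx.1.trans hy.1.symm) (β.injective hxy)
  have hopen : IsOpen {x : ℕ → ℕ | x 0 = n} :=
    (isOpen_discrete ({n} : Set ℕ)).preimage (continuous_apply (A := fun _ : ℕ => ℕ) 0)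
  have hzero : ∀ x, x 0 = n → x ∉ S → e a x = 0 := by
    intro x hx hxS
    have : a (β (tail x)) ≤ (1 / 2 : ℝ) ^ n := by
      by_contra hc
      exact hxS ⟨hx, not_le.1 hc⟩
    unfold e
    rw [hx]
    exact max_eq_right (by linarith)
  by_cases h : ∃ x ∈ A, x 0 = n ∧ x ∉ S
  · -- the function vanishes in a neighbourhood of `x`
    obtain ⟨x, hxA, hx0, hxS⟩ := h
    refine ⟨⟨x, hxA⟩, ?_⟩
    have hO : IsOpen ({x : ℕ → ℕ | x 0 = n} \ S) := hopen.sdiff hfin.isClosed
    have h1 : ∀ᶠ y : A in 𝓝 (⟨x, hxA⟩ : A), A.domRestrict (e a) y = 0 := by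
      have h2 : (Subtype.val ⁻¹' ({x : ℕ → ℕ | x 0 = n} \ S) : Set A) ∈ 𝓝 (⟨x, hxA⟩ : A) :=
        (hO.preimage continuous_subtype_val).mem_nhds ⟨hx0, hxS⟩
      filter_upwards [h2] with y hy
      exact hzero _ hy.1 hy.2
    refine (continuousAt_const (y := (0 : ℝ))).congr ?_
    filter_upwards [h1] with y hy
    exact hy.symm
  · -- the point `p` is isolated in `A`
    push Not at h
    refine ⟨⟨p, hp⟩, ?_⟩
    have hO : IsOpen ({x : ℕ → ℕ | x 0 = n} \ (S \ {p})) :=
      hopen.sdiff (hfin.subset sdiff_subset).isClosed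
    have h2 : (Subtype.val ⁻¹' ({x : ℕ → ℕ | x 0 = n} \ (S \ {p})) : Set A) ∈ 𝓝 (⟨p, hp⟩ : A) :=
      (hO.preimage continuous_subtype_val).mem_nhds ⟨hn.symm, fun h' => h'.2 rfl⟩
    have h1 : ∀ᶠ y : A in 𝓝 (⟨p, hp⟩ : A), A.domRestrict (e a) y = e a p := by
      filter_upwards [h2] with y hy
      have h3 : (y : ℕ → ℕ) ∈ S := h y y.2 hy.1
      have h4 : (y : ℕ → ℕ) = p := by
        by_contra hc
        exact hy.2 ⟨h3, hc⟩
      show e a (y : ℕ → ℕ) = e a p
      rw [h4]
    refine (continuousAt_const (y := e a p)).congr ?_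
    filter_upwards [h1] with y hy
    exact hy.symm

lemma continuous_e : Continuous e := by
  refine continuous_pi fun x => ?_
  unfold e
  exact ((continuous_apply _).sub continuous_const).max continuous_const

lemma injOn_e : InjOn e C := by
  intro a ha b hb hab
  funext t
  have key : ∀ n : ℕ, max (a t - (1 / 2) ^ n) 0 = max (b t - (1 / 2) ^ n) (0 : ℝ) := by
    intro n
    have h1 := congrFun hab (fun k => Nat.casesOn k n (β.symm t))
    have h2 : tail (fun k => Nat.casesOn k n (β.symm t)) = β.symm t := by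
      funext k
      rfl
    unfold e at h1
    rw [h2, Equiv.apply_symm_apply] at h1
    exact h1
  have hlim : Filter.Tendsto (fun n : ℕ => (1 / 2 : ℝ) ^ n) Filter.atTop (𝓝 0) :=
    tendsto_pow_atTop_nhds_zero_of_lt_one (by norm_num) (by norm_num)
  have h3 : ∀ c : ℝ, 0 ≤ c → Filter.Tendsto (fun n : ℕ => max (c - (1 / 2) ^ n) 0)
      Filter.atTop (𝓝 c) := by
    intro c hc
    have := ((tendsto_const_nhds (x := c)).sub hlim).max (tendsto_const_nhds (x := (0 : ℝ)))
    simpa [hc] using this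
  have h4 := h3 (a t) (ha.1 t)
  rw [funext key] at h4
  exact tendsto_nhds_unique h4 (h3 (b t) (hb.1 t))

/-- The unit vectors. -/
lemma single_mem (t : ℝ) : (Pi.single t 1 : ℝ → ℝ) ∈ C := by
  classical
  refine ⟨fun s => ?_, fun F => ?_⟩
  · by_cases h : s = t
    · subst h
      simp
    · simp [h]
  · rw [Finset.sum_pi_single']
    split_ifs <;> norm_num

lemma not_separable : ¬ SeparableSpace C := by
  intro hsep
  have h := Set.PairwiseDisjoint.countable_of_isOpen (α := C) (s := fun t : ℝ => {c : C | 1 / 2 < (c : ℝ → ℝ) t})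
    (a := univ) ?_ ?_ ?_
  · exact Cardinal.not_countable_real h
  · intro s _ t _ hst
    rw [Function.onFun, Set.disjoint_left]
    intro c hs ht
    have h1 := c.2.2 {s, t}
    rw [Finset.sum_pair hst] at h1
    have h2 : 1 / 2 < (c : ℝ → ℝ) s := hs
    have h3 : 1 / 2 < (c : ℝ → ℝ) t := ht
    linarith
  · intro t _
    exact isOpen_lt continuous_const ((continuous_apply t).comp continuous_subtype_val)
  · intro t _
    refine ⟨⟨Pi.single t 1, single_mem t⟩, ?_⟩
    show 1 / 2 < (Pi.single t 1 : ℝ → ℝ) t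
    rw [Pi.single_eq_same]
    norm_num

/-- There is a compact set of scatteredly continuous functions on `ω^ω` (pointwise topology) which
is homeomorphic to a convex compact subset of `ℝ^ℝ` and is neither metrizable nor separable. -/
theorem result : ∃ K : Set ((ℕ → ℕ) → ℝ),
    (∀ f ∈ K, ScatteredlyContinuous f) ∧ IsCompact K ∧
    (∃ C : Set (ℝ → ℝ), Convex ℝ C ∧ IsCompact C ∧ Nonempty (K ≃ₜ C)) ∧
    ¬ MetrizableSpace K ∧ ¬ SeparableSpace K := by
  have hC : CompactSpace C := isCompact_iff_compactSpace.1 isCompact_C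
  have hcont : Continuous (fun c : C => e c) := continuous_e.comp continuous_subtype_val
  have hemb : IsClosedEmbedding (fun c : C => e c) :=
    hcont.isClosedEmbedding fun c d hcd => Subtype.ext (injOn_e c.2 d.2 hcd)
  have hK : IsCompact (range fun c : C => e c) := isCompact_range hcont
  let φ : C ≃ₜ (range fun c : C => e c) := hemb.isEmbedding.toHomeomorph
  have hsep : ¬ SeparableSpace (range fun c : C => e c) := by
    intro h
    exact not_separable (φ.symm.surjective.denseRange.separableSpace φ.symm.continuous)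
  refine ⟨range fun c : C => e c, ?_, hK, ⟨C, convex_C, isCompact_C, ⟨φ.symm⟩⟩, ?_, hsep⟩
  · rintro _ ⟨c, rfl⟩
    exact scatteredlyContinuous_e c.2
  · intro hm
    have hc : CompactSpace (range fun c : C => e c) := isCompact_iff_compactSpace.1 hK
    let _ : MetricSpace (range fun c : C => e c) := metrizableSpaceMetric _
    exact hsep inferInstance

end Pool.Agent.Results.MP_69956f_gt.SimplexCompact
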